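import Mathlib

/-!
# Dependence on `p` of the Korenblum extremal function

If `(f, g)` is admissible for the exponent `m * p` then `(f ^ m, g ^ m)` is admissible for the
exponent `p` with the same value, so `F_{m p} ≤ F_p` for all natural numbers `m ≥ 1`. Since the
Korenblum constants are smaller than `1`, this contradicts the conjectured inequality
`F_{p₁} < F_{p₂}` for `p₁ < p₂`.
-/

set_option autoImplicit false

namespace Pool.Agent.Results.MP_ce4856_an.SquaringReverses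

open MeasureTheory Set Real

/-- `f` belongs to the Bergman space `A^p` of the unit disc. -/
def MemBergman (p : ℝ) (f : ℂ → ℂ) : Prop :=
  DifferentiableOn ℂ f (Metric.ball 0 1) ∧
    IntegrableOn (fun z => ‖f z‖ ^ p) (Metric.ball (0 : ℂ) 1)

/-- The Bergman (quasi-)norm `((1/π) ∫_𝔻 |f|^p dA)^(1/p)`. -/
noncomputable def bergmanNorm (p : ℝ) (f : ℂ → ℂ) : ℝ :=
  ((1 / π) * ∫ z in Metric.ball (0 : ℂ) 1, ‖f z‖ ^ p) ^ (1 / p)

/-- The Korenblum constant `κ_p`: the supremum of the `c ∈ (0,1)` such that `|f| ≤ |g|` on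
`c < |z| < 1` implies `‖f‖_p ≤ ‖g‖_p` for all `f, g ∈ A^p` (and `0` if there is no such `c`). -/
noncomputable def korenblumConst (p : ℝ) : ℝ :=
  sSup {c : ℝ | 0 < c ∧ c < 1 ∧ ∀ f g : ℂ → ℂ, MemBergman p f → MemBergman p g →
    (∀ z : ℂ, c < ‖z‖ → ‖z‖ < 1 → ‖f z‖ ≤ ‖g z‖) → bergmanNorm p f ≤ bergmanNorm p g}

/-- The admissible pairs `FG_p(c)`. -/
def FG (p c : ℝ) : Set ((ℂ → ℂ) × (ℂ → ℂ)) :=
  {u | MemBergman p u.1 ∧ MemBergman p u.2 ∧ bergmanNorm p u.1 ≤ 1 ∧ bergmanNorm p u.2 ≤ 1 ∧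
    ∀ z : ℂ, c ≤ ‖z‖ → ‖z‖ < 1 → ‖u.1 z‖ ≤ ‖u.2 z‖}

/-- The extremal function `F_p(c)`, the supremum of `‖f‖_p^p - ‖g‖_p^p` over `FG_p(c)`. -/
noncomputable def korenblumF (p c : ℝ) : ℝ :=
  sSup ((fun u : (ℂ → ℂ) × (ℂ → ℂ) => bergmanNorm p u.1 ^ p - bergmanNorm p u.2 ^ p) '' FG p c)

theorem integral_nonneg' (p : ℝ) (f : ℂ → ℂ) :
    0 ≤ (1 / π) * ∫ z in Metric.ball (0 : ℂ) 1, ‖f z‖ ^ p := by
  have : 0 ≤ ∫ z in Metric.ball (0 : ℂ) 1, ‖f z‖ ^ p :=
    integral_nonneg fun z => by positivity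
  positivity

theorem bergmanNorm_nonneg (p : ℝ) (f : ℂ → ℂ) : 0 ≤ bergmanNorm p f :=
  Real.rpow_nonneg (integral_nonneg' p f) _

theorem bergmanNorm_rpow {p : ℝ} (hp : 0 < p) (f : ℂ → ℂ) :
    bergmanNorm p f ^ p = (1 / π) * ∫ z in Metric.ball (0 : ℂ) 1, ‖f z‖ ^ p := by
  unfold bergmanNorm
  rw [← Real.rpow_mul (integral_nonneg' p f), one_div_mul_cancel hp.ne', Real.rpow_one]

theorem norm_pow_rpow (m : ℕ) (p : ℝ) (f : ℂ → ℂ) (z : ℂ) :
    ‖(f ^ m) z‖ ^ p = ‖f z‖ ^ ((m : ℝ) * p) := by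
  rw [Pi.pow_apply, norm_pow, ← Real.rpow_natCast, ← Real.rpow_mul (norm_nonneg _)]

theorem memBergman_pow {p : ℝ} {m : ℕ} {f : ℂ → ℂ} (h : MemBergman ((m : ℝ) * p) f) :
    MemBergman p (f ^ m) := by
  refine ⟨h.1.pow m, ?_⟩
  have := h.2
  simp_rw [norm_pow_rpow]
  exact this

theorem bergmanNorm_pow {p : ℝ} (hp : 0 < p) {m : ℕ} (hm : 1 ≤ m) (f : ℂ → ℂ) :
    bergmanNorm p (f ^ m) ^ p = bergmanNorm ((m : ℝ) * p) f ^ ((m : ℝ) * p) := by
  have hm' : (0 : ℝ) < m := by exact_mod_cast hm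
  rw [bergmanNorm_rpow hp, bergmanNorm_rpow (by positivity)]
  simp_rw [norm_pow_rpow]

theorem bergmanNorm_le_one_iff {p : ℝ} (hp : 0 < p) (f : ℂ → ℂ) :
    bergmanNorm p f ≤ 1 ↔ bergmanNorm p f ^ p ≤ 1 := by
  constructor
  · intro h
    exact Real.rpow_le_one (bergmanNorm_nonneg p f) h hp.le
  · intro h
    by_contra h1
    push Not at h1
    exact absurd h (not_le.2 (Real.one_lt_rpow h1 hp))

theorem pow_mem_FG {p c : ℝ} (hp : 0 < p) {m : ℕ} (hm : 1 ≤ m) {u : (ℂ → ℂ) × (ℂ → ℂ)}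
    (h : u ∈ FG ((m : ℝ) * p) c) : (u.1 ^ m, u.2 ^ m) ∈ FG p c := by
  have hm' : (0 : ℝ) < m := by exact_mod_cast hm
  obtain ⟨h1, h2, h3, h4, h5⟩ := h
  refine ⟨memBergman_pow h1, memBergman_pow h2, ?_, ?_, ?_⟩
  · rw [bergmanNorm_le_one_iff hp, bergmanNorm_pow hp hm, ← bergmanNorm_le_one_iff (by positivity)]
    exact h3
  · rw [bergmanNorm_le_one_iff hp, bergmanNorm_pow hp hm, ← bergmanNorm_le_one_iff (by positivity)]
    exact h4
  · intro z hz hz1
    simp only [Pi.pow_apply, norm_pow]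
    exact pow_le_pow_left₀ (norm_nonneg _) (h5 z hz hz1) m

theorem zero_mem_FG {p : ℝ} (hp : 0 < p) (c : ℝ) : ((fun _ => 0, fun _ => 0) : (ℂ → ℂ) × (ℂ → ℂ)) ∈ FG p c := by
  have h0 : MemBergman p (fun _ => (0 : ℂ)) := by
    refine ⟨differentiableOn_const _, ?_⟩
    simp [Real.zero_rpow hp.ne']
  have h1 : bergmanNorm p (fun _ => (0 : ℂ)) ≤ 1 := by
    unfold bergmanNorm
    simp [Real.zero_rpow hp.ne', Real.zero_rpow (inv_ne_zero hp.ne')]
  exact ⟨h0, h0, h1, h1, fun z _ _ => le_rfl⟩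

theorem korenblumF_mul_le {p : ℝ} (hp : 0 < p) {m : ℕ} (hm : 1 ≤ m) (c : ℝ) :
    korenblumF ((m : ℝ) * p) c ≤ korenblumF p c := by
  have hm' : (0 : ℝ) < m := by exact_mod_cast hm
  unfold korenblumF
  apply csSup_le_csSup
  · refine ⟨1, ?_⟩
    rintro x ⟨u, hu, rfl⟩
    have h1 := (bergmanNorm_le_one_iff hp u.1).1 hu.2.2.1
    have h2 : 0 ≤ bergmanNorm p u.2 ^ p := Real.rpow_nonneg (bergmanNorm_nonneg p u.2) _
    simp only
    linarith
  · exact ⟨_, _, zero_mem_FG (by positivity) c, rfl⟩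
  · rintro x ⟨u, hu, rfl⟩
    refine ⟨_, pow_mem_FG hp hm hu, ?_⟩
    simp only [bergmanNorm_pow hp hm]

theorem korenblumConst_lt_one {p : ℝ} (hp : 0 < p) : korenblumConst p < 1 := by
  have hball : (volume (Metric.ball (0 : ℂ) 1)).toReal = π := by
    rw [Complex.volume_ball]
    simp
  have hball_ne : volume (Metric.ball (0 : ℂ) 1) ≠ ⊤ := measure_ball_lt_top.ne
  have hcont : Continuous fun z : ℂ => ‖z‖ ^ p := continuous_norm.rpow_const fun _ => Or.inr hp.le
  have hint : IntegrableOn (fun z : ℂ => ‖z‖ ^ p) (Metric.ball (0 : ℂ) 1) := by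
    refine (hcont.continuousOn.integrableOn_compact (isCompact_closedBall (0 : ℂ) 1)).mono_set ?_
    exact Metric.ball_subset_closedBall
  have hone : IntegrableOn (fun _ : ℂ => (1 : ℝ)) (Metric.ball (0 : ℂ) 1) :=
    integrableOn_const hball_ne
  have hz : MemBergman p (fun z => z) := ⟨differentiableOn_id, hint⟩
  set K : ℝ := (1 / π) * ∫ z in Metric.ball (0 : ℂ) 1, ‖z‖ ^ p with hK
  have hK0 : 0 ≤ K := integral_nonneg' p (fun z => z)
  have hpi := Real.pi_pos
  have hK1 : K < 1 := by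
    have h1 : 0 < ∫ z in Metric.ball (0 : ℂ) 1, (1 - ‖z‖ ^ p) := by
      rw [setIntegral_pos_iff_support_of_nonneg_ae]
      · have : Function.support (fun z : ℂ => 1 - ‖z‖ ^ p) ∩ Metric.ball (0 : ℂ) 1
            = Metric.ball (0 : ℂ) 1 := by
          apply Set.inter_eq_right.2
          intro z hz
          rw [Function.mem_support]
          have h2 : ‖z‖ < 1 := by simpa using hz
          have := Real.rpow_lt_one (norm_nonneg z) h2 hp
          linarith
        rw [this]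
        exact Metric.measure_ball_pos _ _ one_pos
      · filter_upwards [ae_restrict_mem measurableSet_ball] with z hz
        have h2 : ‖z‖ < 1 := by simpa using hz
        have := Real.rpow_le_one (norm_nonneg z) h2.le hp.le
        simp only [Pi.zero_apply]
        linarith
      · exact hone.sub hint
    rw [integral_sub hone hint] at h1
    have h3 : ∫ _ in Metric.ball (0 : ℂ) 1, (1 : ℝ) = π := by
      rw [setIntegral_const, smul_eq_mul, mul_one]
      exact hball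
    rw [h3] at h1
    rw [hK, one_div, inv_mul_lt_iff₀ hpi]
    linarith
  have key : korenblumConst p ≤ K ^ (1 / p) := by
    unfold korenblumConst
    apply Real.sSup_le _ (Real.rpow_nonneg hK0 _)
    rintro c ⟨hc0, hc1, hc⟩
    have hconst : MemBergman p (fun _ => (c : ℂ)) :=
      ⟨differentiableOn_const _, integrableOn_const hball_ne⟩
    have h2 := hc (fun _ => (c : ℂ)) (fun z => z) hconst hz (by
      intro z hz _
      simp only [Complex.norm_real, Real.norm_eq_abs, abs_of_pos hc0]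
      exact hz.le)
    have h3 : bergmanNorm p (fun _ => (c : ℂ)) = c := by
      unfold bergmanNorm
      simp only [Complex.norm_real, Real.norm_eq_abs, abs_of_pos hc0]
      rw [setIntegral_const, smul_eq_mul]
      have : volume.real (Metric.ball (0 : ℂ) 1) = π := hball
      rw [this]
      have h4 : 1 / π * (π * c ^ p) = c ^ p := by field_simp
      rw [h4, ← Real.rpow_mul hc0.le, mul_one_div_cancel hp.ne', Real.rpow_one]
    rw [h3] at h2
    exact h2
  exact lt_of_le_of_lt key (Real.rpow_lt_one hK0 hK1 (by positivity))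

/-- For all `p > 0` and all natural numbers `m ≥ 2` one has `p < m p`, the interval
`(max κ_p κ_{mp}, 1)` is not empty, and `F_{m p}(c) ≤ F_p(c)` for all `c ∈ (0,1)`. -/
theorem result : ∀ p : ℝ, 0 < p → ∀ m : ℕ, 2 ≤ m →
    p < m * p ∧ max (korenblumConst p) (korenblumConst (m * p)) < 1 ∧
      ∀ c ∈ Ioo (0 : ℝ) 1, korenblumF (m * p) c ≤ korenblumF p c := by
  intro p hp m hm
  have hm' : (2 : ℝ) ≤ m := by exact_mod_cast hm
  refine ⟨by nlinarith, max_lt (korenblumConst_lt_one hp) (korenblumConst_lt_one (by positivity)), ?_⟩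
  intro c _
  exact korenblumF_mul_le hp (by omega) c

end Pool.Agent.Results.MP_ce4856_an.SquaringReverses
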